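import Mathlib

/-!
# Limit points of automorphism-to-lattice-endomorphism ratios

The set of limit values of `|Aut L| / |End_l L|` for finite lattices `L` with `|L| → ∞` is the
whole interval `[0, 1]`.
-/

namespace Pool.Agent.Results.MP_e86a57_co.FullInterval

open Filter (Tendsto atTop)
open scoped Topology

/-- A finite nonempty (hence bounded) lattice. -/
structure FinLat where
  /-- the underlying set -/
  carrier : Type
  /-- the lattice structure -/
  [lattice : Lattice carrier]
  /-- least and greatest element -/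
  [bounded : BoundedOrder carrier]
  /-- finiteness -/
  [finite : Finite carrier]

attribute [instance] FinLat.lattice FinLat.bounded FinLat.finite

/-- The number of lattice endomorphisms, preserving all suprema and infima including the empty
ones. -/
noncomputable def numEnd (L : Type) [Lattice L] [BoundedOrder L] : ℕ :=
  Nat.card (BoundedLatticeHom L L)

/-- The number of lattice automorphisms: the bijective lattice endomorphisms. -/
noncomputable def numAut (L : Type) [Lattice L] [BoundedOrder L] : ℕ :=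
  Nat.card {f : BoundedLatticeHom L L // Function.Bijective f}

/-- The ratio `r(L) = |Aut L| / |End_l L|`. -/
noncomputable def ratio (L : Type) [Lattice L] [BoundedOrder L] : ℝ :=
  (numAut L : ℝ) / (numEnd L : ℝ)

/-- The limiting set `Λ`. -/
def limitingSet : Set ℝ :=
  {x | x ∈ Set.Icc (0 : ℝ) 1 ∧ ∃ L : ℕ → FinLat,
    Tendsto (fun k => Nat.card (L k).carrier) atTop atTop ∧
    Tendsto (fun k => ratio (L k).carrier) atTop (𝓝 x)}

/-! ### The ordinal sum of `A`, an antichain and `B` -/

/-- The ordinal sum of `A`, an antichain with `N` elements, and `B`. -/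
inductive S3 (A B : Type) (N : ℕ) : Type
  | lo : A → S3 A B N
  | mid : Fin N → S3 A B N
  | hi : B → S3 A B N

namespace S3

variable {A B : Type} {N : ℕ}

/-- The order. -/
def le [LE A] [LE B] : S3 A B N → S3 A B N → Prop
  | lo a, lo a' => a ≤ a'
  | lo _, mid _ => True
  | lo _, hi _ => True
  | mid _, lo _ => False
  | mid i, mid j => i = j
  | mid _, hi _ => True
  | hi _, lo _ => False
  | hi _, mid _ => False
  | hi b, hi b' => b ≤ b'

/-- The supremum. -/
def sup [Max A] [Max B] [Bot B] : S3 A B N → S3 A B N → S3 A B N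
  | lo a, lo a' => lo (a ⊔ a')
  | lo _, mid j => mid j
  | lo _, hi b => hi b
  | mid i, lo _ => mid i
  | mid i, mid j => if i = j then mid i else hi ⊥
  | mid _, hi b => hi b
  | hi b, lo _ => hi b
  | hi b, mid _ => hi b
  | hi b, hi b' => hi (b ⊔ b')

/-- The infimum. -/
def inf [Min A] [Min B] [Top A] : S3 A B N → S3 A B N → S3 A B N
  | lo a, lo a' => lo (a ⊓ a')
  | lo a, mid _ => lo a
  | lo a, hi _ => lo a
  | mid _, lo a => lo a
  | mid i, mid j => if i = j then mid i else lo ⊤
  | mid i, hi _ => mid i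
  | hi _, lo a => lo a
  | hi _, mid i => mid i
  | hi b, hi b' => hi (b ⊓ b')

variable [Lattice A] [BoundedOrder A] [Lattice B] [BoundedOrder B]

instance : Lattice (S3 A B N) where
  le := le
  le_refl x := by cases x <;> simp [le]
  le_trans x y z h1 h2 := by
    cases x <;> cases y <;> cases z <;> simp only [le] at * <;>
      first | trivial | exact le_trans h1 h2 | exact h1.trans h2
  le_antisymm x y h1 h2 := by
    cases x <;> cases y <;> simp only [le] at *
    · exact congrArg _ (le_antisymm h1 h2)
    · exact congrArg _ h1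
    · exact congrArg _ (le_antisymm h1 h2)
  sup := sup
  inf := inf
  le_sup_left x y := by
    cases x <;> cases y <;> simp only [sup, le, le_sup_left, le_refl]
    split_ifs <;> trivial
  le_sup_right x y := by
    cases x <;> cases y <;> simp only [sup, le, le_sup_right, le_refl]
    split_ifs with h
    · exact h.symm
    · trivial
  sup_le x y z h1 h2 := by
    cases x <;> cases y <;> cases z <;> simp only [sup, le] at * <;>
      first
        | trivial
        | exact sup_le h1 h2
        | (split_ifs with h <;>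
            first
              | trivial
              | exact h1
              | exact absurd (h1.trans h2.symm) h
              | simp)
  inf_le_left x y := by
    cases x <;> cases y <;> simp only [inf, le, inf_le_left, le_refl]
    split_ifs <;> trivial
  inf_le_right x y := by
    cases x <;> cases y <;> simp only [inf, le, inf_le_right, le_refl]
    split_ifs with h
    · exact h
    · trivial
  le_inf x y z h1 h2 := by
    cases x <;> cases y <;> cases z <;> simp only [inf, le] at * <;>
      first
        | trivial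
        | exact le_inf h1 h2
        | (split_ifs with h <;>
            first
              | trivial
              | exact h1
              | exact absurd (h1.symm.trans h2) h
              | simp)

instance : BoundedOrder (S3 A B N) where
  top := hi ⊤
  le_top x := by
    cases x <;> first | trivial | exact le_top
  bot := lo ⊥
  bot_le x := by
    cases x <;> first | trivial | exact bot_le

lemma bot_def : (⊥ : S3 A B N) = lo ⊥ := rfl
lemma top_def : (⊤ : S3 A B N) = hi ⊤ := rfl
lemma lo_sup (a a' : A) : (lo a ⊔ lo a' : S3 A B N) = lo (a ⊔ a') := rfl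
lemma lo_inf (a a' : A) : (lo a ⊓ lo a' : S3 A B N) = lo (a ⊓ a') := rfl
lemma hi_sup (a a' : B) : (hi a ⊔ hi a' : S3 A B N) = hi (a ⊔ a') := rfl
lemma hi_inf (a a' : B) : (hi a ⊓ hi a' : S3 A B N) = hi (a ⊓ a') := rfl
lemma mid_sup {i j : Fin N} (h : i ≠ j) : (mid i ⊔ mid j : S3 A B N) = hi ⊥ := if_neg h
lemma mid_inf {i j : Fin N} (h : i ≠ j) : (mid i ⊓ mid j : S3 A B N) = lo ⊤ := if_neg h
lemma lo_le_lo {a a' : A} : (lo a ≤ (lo a' : S3 A B N)) ↔ a ≤ a' := Iff.rfl
lemma hi_le_hi {a a' : B} : (hi a ≤ (hi a' : S3 A B N)) ↔ a ≤ a' := Iff.rfl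
lemma lo_le_mid (a : A) (i : Fin N) : (lo a ≤ (mid i : S3 A B N)) := trivial
lemma lo_le_hi (a : A) (b : B) : (lo a ≤ (hi b : S3 A B N)) := trivial
lemma mid_le_hi (i : Fin N) (b : B) : (mid i ≤ (hi b : S3 A B N)) := trivial
lemma mid_le_mid {i j : Fin N} : ((mid i : S3 A B N) ≤ mid j) ↔ i = j := Iff.rfl

instance [Finite A] [Finite B] : Finite (S3 A B N) := by
  let g : S3 A B N → A ⊕ (Fin N ⊕ B) := fun x =>
    match x with
    | lo a => Sum.inl a
    | mid i => Sum.inr (Sum.inl i)
    | hi b => Sum.inr (Sum.inr b)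
  refine Finite.of_injective g ?_
  intro x y h
  cases x <;> cases y <;> simp [g] at h ⊢ <;> exact h

/-- The sum decomposition. -/
def equivSum : S3 A B N ≃ A ⊕ (Fin N ⊕ B) where
  toFun x :=
    match x with
    | lo a => Sum.inl a
    | mid i => Sum.inr (Sum.inl i)
    | hi b => Sum.inr (Sum.inr b)
  invFun x :=
    match x with
    | Sum.inl a => lo a
    | Sum.inr (Sum.inl i) => mid i
    | Sum.inr (Sum.inr b) => hi b
  left_inv x := by cases x <;> rfl
  right_inv x := by rcases x with a | i | b <;> rfl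

omit [Lattice A] [BoundedOrder A] [Lattice B] [BoundedOrder B] in
lemma card_eq [Finite A] [Finite B] : Nat.card (S3 A B N) = Nat.card A + (N + Nat.card B) := by
  rw [Nat.card_congr (equivSum (A := A) (B := B) (N := N)), Nat.card_sum, Nat.card_sum]
  simp

/-- The endomorphism built from endomorphisms of `A` and `B` and a permutation. -/
def build (g : BoundedLatticeHom A A) (σ : Equiv.Perm (Fin N)) (h : BoundedLatticeHom B B) :
    BoundedLatticeHom (S3 A B N) (S3 A B N) where
  toFun x :=
    match x with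
    | lo a => lo (g a)
    | mid i => mid (σ i)
    | hi b => hi (h b)
  map_sup' x y := by
    cases x <;> cases y
    case lo.lo a a' => change lo (g (a ⊔ a')) = lo (g a ⊔ g a'); rw [map_sup]
    case hi.hi b b' => change hi (h (b ⊔ b')) = hi (h b ⊔ h b'); rw [map_sup]
    case mid.mid i j =>
      by_cases hij : i = j
      · subst hij
        rw [sup_idem, sup_idem]
      · rw [mid_sup hij]
        change hi (h ⊥) = mid (σ i) ⊔ mid (σ j)
        rw [mid_sup (fun e => hij (σ.injective e)), map_bot]
    all_goals rfl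
  map_inf' x y := by
    cases x <;> cases y
    case lo.lo a a' => change lo (g (a ⊓ a')) = lo (g a ⊓ g a'); rw [map_inf]
    case hi.hi b b' => change hi (h (b ⊓ b')) = hi (h b ⊓ h b'); rw [map_inf]
    case mid.mid i j =>
      by_cases hij : i = j
      · subst hij
        rw [inf_idem, inf_idem]
      · rw [mid_inf hij]
        change lo (g ⊤) = mid (σ i) ⊓ mid (σ j)
        rw [mid_inf (fun e => hij (σ.injective e)), map_top]
    all_goals rfl
  map_top' := by change hi (h ⊤) = hi ⊤; rw [map_top]
  map_bot' := by change lo (g ⊥) = lo ⊥; rw [map_bot]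

lemma build_lo (g : BoundedLatticeHom A A) (σ : Equiv.Perm (Fin N)) (h : BoundedLatticeHom B B)
    (a : A) : build g σ h (lo a) = lo (g a) := rfl
lemma build_mid (g : BoundedLatticeHom A A) (σ : Equiv.Perm (Fin N)) (h : BoundedLatticeHom B B)
    (i : Fin N) : build g σ h (mid i) = mid (σ i) := rfl
lemma build_hi (g : BoundedLatticeHom A A) (σ : Equiv.Perm (Fin N)) (h : BoundedLatticeHom B B)
    (b : B) : build g σ h (hi b) = hi (h b) := rfl

omit [Lattice A] [BoundedOrder A] [Lattice B] [BoundedOrder B] in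
lemma lo_inj {a a' : A} (h : (lo a : S3 A B N) = lo a') : a = a' := by injection h
omit [Lattice A] [BoundedOrder A] [Lattice B] [BoundedOrder B] in
lemma hi_inj {a a' : B} (h : (hi a : S3 A B N) = hi a') : a = a' := by injection h
omit [Lattice A] [BoundedOrder A] [Lattice B] [BoundedOrder B] in
lemma mid_inj {a a' : Fin N} (h : (mid a : S3 A B N) = mid a') : a = a' := by injection h

lemma build_injective (g g' : BoundedLatticeHom A A) (σ σ' : Equiv.Perm (Fin N))
    (h h' : BoundedLatticeHom B B) (e : build g σ h = build g' σ' h') :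
    g = g' ∧ σ = σ' ∧ h = h' := by
  refine ⟨?_, ?_, ?_⟩
  · ext a
    exact lo_inj (DFunLike.congr_fun e (lo a))
  · ext i
    exact congrArg _ (mid_inj (DFunLike.congr_fun e (mid i)))
  · ext b
    exact hi_inj (DFunLike.congr_fun e (hi b))

/-- Endomorphisms that do not collapse the antichain are of the form `build g σ h`. -/
lemma exists_build [Finite A] [Finite B] (hN : Nat.card A + Nat.card B < N) (hN3 : 3 ≤ N)
    (f : BoundedLatticeHom (S3 A B N) (S3 A B N)) (hne : f (lo ⊤) ≠ f (hi ⊥)) :
    ∃ g σ h, build g σ h = f := by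
  have hinf : ∀ i j, i ≠ j → f (mid i) ⊓ f (mid j) = f (lo ⊤) := by
    intro i j hij
    rw [← map_inf, mid_inf hij]
  have hsup : ∀ i j, i ≠ j → f (mid i) ⊔ f (mid j) = f (hi ⊥) := by
    intro i j hij
    rw [← map_sup, mid_sup hij]
  have hinj : ∀ i j, f (mid i) = f (mid j) → i = j := by
    intro i j h
    by_contra hij
    apply hne
    rw [← hinf i j hij, ← hsup i j hij, h, inf_idem, sup_idem]
  have hthird : ∀ i : Fin N, ∃ j l, i ≠ j ∧ i ≠ l ∧ j ≠ l := by
    intro i
    obtain ⟨j, hj⟩ := Finset.exists_mem_notMem_of_card_lt_card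
      (s := ({i} : Finset (Fin N))) (t := Finset.univ) (by simp; omega)
    obtain ⟨l, hl⟩ := Finset.exists_mem_notMem_of_card_lt_card
      (s := ({i, j} : Finset (Fin N))) (t := Finset.univ)
      (lt_of_le_of_lt (Finset.card_le_two) (by simp; omega))
    simp only [Finset.mem_univ, Finset.mem_singleton, true_and] at hj
    simp only [Finset.mem_univ, Finset.mem_insert, Finset.mem_singleton, true_and, not_or] at hl
    exact ⟨j, l, fun e => hj e.symm, fun e => hl.1 e.symm, fun e => hl.2 e.symm⟩
  have hu : ∀ i, f (mid i) ≠ f (lo ⊤) := by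
    intro i h
    obtain ⟨j, l, hij, hil, hjl⟩ := hthird i
    have h1 := hsup i j hij
    have h2 := hsup i l hil
    have h3 := hinf i j hij
    have h4 := hinf i l hil
    rw [← h, inf_eq_left] at h3 h4
    rw [sup_eq_right.mpr h3] at h1
    rw [sup_eq_right.mpr h4] at h2
    exact hjl (hinj j l (h1.trans h2.symm))
  have hv : ∀ i, f (mid i) ≠ f (hi ⊥) := by
    intro i h
    obtain ⟨j, l, hij, hil, hjl⟩ := hthird i
    have h1 := hsup i j hij
    have h2 := hsup i l hil
    have h3 := hinf i j hij
    have h4 := hinf i l hil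
    rw [← h, sup_eq_left] at h1 h2
    rw [inf_eq_right.mpr h1] at h3
    rw [inf_eq_right.mpr h2] at h4
    exact hjl (hinj j l (h3.trans h4.symm))
  have hex : ∃ i k, f (mid i) = mid k := by
    by_contra hcon
    push Not at hcon
    let q : Fin N → A ⊕ B := fun i =>
      match f (mid i) with
      | lo a => Sum.inl a
      | mid k => Sum.inl ⊤
      | hi b => Sum.inr b
    have hq : Function.Injective q := by
      intro i j h
      apply hinj
      simp only [q] at h
      rcases hfi : f (mid i) with a | k | b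
      · rcases hfj : f (mid j) with a' | k' | b'
        · rw [hfi, hfj] at h
          simp only [Sum.inl.injEq] at h
          rw [h]
        · exact absurd hfj (hcon j k')
        · rw [hfi, hfj] at h
          simp at h
      · exact absurd hfi (hcon i k)
      · rcases hfj : f (mid j) with a' | k' | b'
        · rw [hfi, hfj] at h
          simp at h
        · exact absurd hfj (hcon j k')
        · rw [hfi, hfj] at h
          simp only [Sum.inr.injEq] at h
          rw [h]
    have := Nat.card_le_card_of_injective q hq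
    rw [Nat.card_sum, Nat.card_fin] at this
    omega
  obtain ⟨i0, k0, h0⟩ := hex
  have hall : ∀ j, ∃ k, f (mid j) = mid k := by
    intro j
    by_cases hj : i0 = j
    · exact ⟨k0, hj ▸ h0⟩
    · rcases hfj : f (mid j) with a | k | b
      · exfalso
        apply hu j
        rw [← hinf i0 j hj, h0, hfj]
        rfl
      · exact ⟨k, rfl⟩
      · exfalso
        apply hv j
        rw [← hsup i0 j hj, h0, hfj]
        rfl
  choose s hs using hall
  have hsinj : Function.Injective s := by
    intro i j h
    apply hinj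
    rw [hs, hs, h]
  have hsbij : Function.Bijective s := Finite.injective_iff_bijective.mp hsinj
  obtain ⟨i1, j1, _, h1, -, -⟩ : ∃ i j l : Fin N, i ≠ j ∧ i ≠ l ∧ j ≠ l := ⟨_, hthird i0⟩
  have htop : f (lo ⊤) = lo ⊤ := by
    rw [← hinf i1 j1 h1, hs, hs, mid_inf (fun e => h1 (hsinj e))]
  have hbot : f (hi ⊥) = hi ⊥ := by
    rw [← hsup i1 j1 h1, hs, hs, mid_sup (fun e => h1 (hsinj e))]
  have hlo : ∀ a, ∃ a', f (lo a) = lo a' := by
    intro a
    have h : f (lo a) ≤ f (lo ⊤) := OrderHomClass.mono f (lo_le_lo.mpr le_top)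
    rw [htop] at h
    rcases hfa : f (lo a) with a' | k | b
    · exact ⟨a', rfl⟩
    · rw [hfa] at h; exact h.elim
    · rw [hfa] at h; exact h.elim
  have hhi : ∀ b, ∃ b', f (hi b) = hi b' := by
    intro b
    have h : f (hi ⊥) ≤ f (hi b) := OrderHomClass.mono f (hi_le_hi.mpr bot_le)
    rw [hbot] at h
    rcases hfb : f (hi b) with a | k | b'
    · rw [hfb] at h; exact h.elim
    · rw [hfb] at h; exact h.elim
    · exact ⟨b', rfl⟩
  choose g hg using hlo
  choose h' hh using hhi
  refine ⟨⟨⟨⟨g, ?_⟩, ?_⟩, ?_, ?_⟩, Equiv.ofBijective s hsbij, ⟨⟨⟨h', ?_⟩, ?_⟩, ?_, ?_⟩, ?_⟩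
  · intro a a'
    apply lo_inj (B := B) (N := N)
    rw [← hg, ← lo_sup, map_sup, hg, hg, lo_sup]
  · intro a a'
    apply lo_inj (B := B) (N := N)
    change lo (g (a ⊓ a')) = lo (g a ⊓ g a')
    rw [← hg, ← lo_inf, map_inf, hg, hg, lo_inf]
  · apply lo_inj (B := B) (N := N)
    change lo (g ⊤) = lo ⊤
    rw [← hg, htop]
  · apply lo_inj (B := B) (N := N)
    change lo (g ⊥) = lo ⊥
    rw [← hg]
    exact map_bot f
  · intro a a'
    apply hi_inj (A := A) (N := N)
    rw [← hh, ← hi_sup, map_sup, hh, hh, hi_sup]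
  · intro a a'
    apply hi_inj (A := A) (N := N)
    change hi (h' (a ⊓ a')) = hi (h' a ⊓ h' a')
    rw [← hh, ← hi_inf, map_inf, hh, hh, hi_inf]
  · apply hi_inj (A := A) (N := N)
    change hi (h' ⊤) = hi ⊤
    rw [← hh]
    exact map_top f
  · apply hi_inj (A := A) (N := N)
    change hi (h' ⊥) = hi ⊥
    rw [← hh, hbot]
  · apply DFunLike.ext
    intro x
    cases x with
    | lo a => exact (hg a).symm
    | mid i => exact (hs i).symm
    | hi b => exact (hh b).symm

instance finiteHom (L : Type) [Lattice L] [BoundedOrder L] [Finite L] :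
    Finite (BoundedLatticeHom L L) :=
  Finite.of_injective (fun f : BoundedLatticeHom L L => (f : L → L)) DFunLike.coe_injective

lemma le_numEnd [Finite A] [Finite B] :
    numEnd A * N.factorial * numEnd B ≤ numEnd (S3 A B N) := by
  unfold numEnd
  have h : Nat.card (BoundedLatticeHom A A × Equiv.Perm (Fin N) × BoundedLatticeHom B B) =
      Nat.card (BoundedLatticeHom A A) * N.factorial * Nat.card (BoundedLatticeHom B B) := by
    rw [Nat.card_prod, Nat.card_prod, Nat.card_perm, Nat.card_fin, mul_assoc]
  rw [← h]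
  refine Nat.card_le_card_of_injective (fun t => build t.1 t.2.1 t.2.2) ?_
  rintro ⟨g, σ, h⟩ ⟨g', σ', h'⟩ e
  obtain ⟨h1, h2, h3⟩ := build_injective _ _ _ _ _ _ e
  exact Prod.ext h1 (Prod.ext h2 h3)

lemma numEnd_le [Finite A] [Finite B] (hN : Nat.card A + Nat.card B < N) (hN3 : 3 ≤ N) :
    numEnd (S3 A B N) ≤ numEnd A * N.factorial * numEnd B +
      (Nat.card A + (N + Nat.card B)) ^ (Nat.card A + Nat.card B) := by
  classical
  unfold numEnd
  have h : Nat.card ((BoundedLatticeHom A A × Equiv.Perm (Fin N) × BoundedLatticeHom B B) ⊕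
      (A ⊕ B → S3 A B N)) =
      Nat.card (BoundedLatticeHom A A) * N.factorial * Nat.card (BoundedLatticeHom B B) +
      (Nat.card A + (N + Nat.card B)) ^ (Nat.card A + Nat.card B) := by
    rw [Nat.card_sum, Nat.card_prod, Nat.card_prod, Nat.card_perm, Nat.card_fin, mul_assoc,
      Nat.card_fun, Nat.card_sum, card_eq]
  rw [← h]
  have hch : ∀ f : BoundedLatticeHom (S3 A B N) (S3 A B N), f (lo ⊤) ≠ f (hi ⊥) →
      ∃ t : BoundedLatticeHom A A × Equiv.Perm (Fin N) × BoundedLatticeHom B B,
        build t.1 t.2.1 t.2.2 = f := by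
    intro f hf
    obtain ⟨g, σ, h, e⟩ := exists_build hN hN3 f hf
    exact ⟨(g, σ, h), e⟩
  refine Nat.card_le_card_of_injective (fun f => if hf : f (lo ⊤) ≠ f (hi ⊥) then
    Sum.inl (hch f hf).choose else Sum.inr (fun x => Sum.elim (fun a => f (lo a))
      (fun b => f (hi b)) x)) ?_
  intro f f' e
  simp only at e
  split_ifs at e with h1 h2 h2
  · rw [← (hch f h1).choose_spec, ← (hch f' h2).choose_spec, Sum.inl.inj e]
  · have e' := Sum.inr.inj e
    have hlo : ∀ a, f (lo a) = f' (lo a) := fun a => congrFun e' (Sum.inl a)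
    have hhi : ∀ b, f (hi b) = f' (hi b) := fun b => congrFun e' (Sum.inr b)
    push Not at h1 h2
    have hm : ∀ (f : BoundedLatticeHom (S3 A B N) (S3 A B N)), f (lo ⊤) = f (hi ⊥) →
        ∀ i, f (mid i) = f (lo ⊤) := by
      intro f hf i
      apply le_antisymm
      · rw [hf]
        exact OrderHomClass.mono f (mid_le_hi i ⊥)
      · exact OrderHomClass.mono f (lo_le_mid ⊤ i)
    apply DFunLike.ext
    intro x
    cases x with
    | lo a => exact hlo a
    | mid i => rw [hm f h1 i, hm f' h2 i, hlo]
    | hi b => exact hhi b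

lemma build_bijective [Finite A] [Finite B] {g : BoundedLatticeHom A A}
    {σ : Equiv.Perm (Fin N)} {h : BoundedLatticeHom B B}
    (hg : Function.Bijective g) (hh : Function.Bijective h) :
    Function.Bijective (build g σ h : S3 A B N → S3 A B N) := by
  rw [← Finite.injective_iff_bijective]
  intro x y e
  cases x <;> cases y
  case lo.lo a a' => exact congrArg _ (hg.1 (lo_inj e))
  case mid.mid i j => exact congrArg _ (σ.injective (mid_inj e))
  case hi.hi b b' => exact congrArg _ (hh.1 (hi_inj e))
  all_goals exact absurd e (by simp [build_lo, build_mid, build_hi])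

lemma numAut_eq [Finite A] [Finite B] (hN : Nat.card A + Nat.card B < N) (hN3 : 3 ≤ N) :
    numAut (S3 A B N) = numAut A * N.factorial * numAut B := by
  unfold numAut
  have h : Nat.card ({f : BoundedLatticeHom A A // Function.Bijective f} ×
      Equiv.Perm (Fin N) × {f : BoundedLatticeHom B B // Function.Bijective f}) =
      Nat.card {f : BoundedLatticeHom A A // Function.Bijective f} * N.factorial *
        Nat.card {f : BoundedLatticeHom B B // Function.Bijective f} := by
    rw [Nat.card_prod, Nat.card_prod, Nat.card_perm, Nat.card_fin, mul_assoc]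
  rw [← h]
  symm
  refine Nat.card_congr (Equiv.ofBijective (fun t => ⟨build t.1.1 t.2.1 t.2.2.1,
    build_bijective t.1.2 t.2.2.2⟩) ⟨?_, ?_⟩)
  · rintro ⟨⟨g, hg⟩, σ, ⟨h, hh⟩⟩ ⟨⟨g', hg'⟩, σ', ⟨h', hh'⟩⟩ e
    obtain ⟨h1, h2, h3⟩ := build_injective _ _ _ _ _ _ (Subtype.ext_iff.mp e)
    simp only at h1 h2 h3
    subst h1 h2 h3
    rfl
  · rintro ⟨f, hf⟩
    obtain ⟨g, σ, h, e⟩ := exists_build hN hN3 f (fun e => by
      have := hf.1 e
      simp at this)
    have hg : Function.Bijective g := by
      rw [← Finite.injective_iff_bijective]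
      intro a a' haa
      apply lo_inj (B := B) (N := N)
      apply hf.1
      rw [← e, build_lo, build_lo, haa]
    have hh : Function.Bijective h := by
      rw [← Finite.injective_iff_bijective]
      intro a a' haa
      apply hi_inj (A := A) (N := N)
      apply hf.1
      rw [← e, build_hi, build_hi, haa]
    exact ⟨⟨⟨g, hg⟩, σ, ⟨h, hh⟩⟩, Subtype.ext e⟩

end S3

lemma numEnd_pos (L : Type) [Lattice L] [BoundedOrder L] [Finite L] : 0 < numEnd L := by
  unfold numEnd
  have : Nonempty (BoundedLatticeHom L L) := ⟨BoundedLatticeHom.id L⟩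
  exact Nat.card_pos

lemma tendsto_aux (c : ℕ) :
    Tendsto (fun N : ℕ => ((c + N : ℕ) : ℝ) ^ c / (N.factorial : ℝ)) atTop (𝓝 0) := by
  have h1 : Tendsto (fun n : ℕ => (n : ℝ) ^ c / (2 : ℝ) ^ n) atTop (𝓝 0) :=
    tendsto_pow_const_div_const_pow_of_one_lt c (by norm_num)
  have h2 : Tendsto (fun N : ℕ => ((c + N : ℕ) : ℝ) ^ c / (2 : ℝ) ^ (c + N)) atTop (𝓝 0) :=
    h1.comp (Filter.tendsto_atTop_mono (fun n => Nat.le_add_left n c) Filter.tendsto_id)
  have h3 : Tendsto (fun n : ℕ => (2 : ℝ) ^ n / (n.factorial : ℝ)) atTop (𝓝 0) :=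
    FloorSemiring.tendsto_pow_div_factorial_atTop 2
  have h4 := (h2.mul h3).const_mul ((2 : ℝ) ^ c)
  rw [mul_zero, mul_zero] at h4
  refine h4.congr ?_
  intro N
  rw [pow_add]
  have : (N.factorial : ℝ) ≠ 0 := by positivity
  field_simp

lemma tendsto_ratio (A B : Type) [Lattice A] [BoundedOrder A] [Finite A] [Lattice B]
    [BoundedOrder B] [Finite B] :
    Tendsto (fun N : ℕ => ratio (S3 A B N)) atTop (𝓝 (ratio A * ratio B)) := by
  set c := Nat.card A + Nat.card B with hc
  have hA : (0 : ℝ) < numEnd A := by exact_mod_cast numEnd_pos A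
  have hB : (0 : ℝ) < numEnd B := by exact_mod_cast numEnd_pos B
  have h1 : Tendsto (fun N : ℕ => (numEnd (S3 A B N) : ℝ) / (N.factorial : ℝ)) atTop
      (𝓝 ((numEnd A : ℝ) * (numEnd B : ℝ))) := by
    have hup : Tendsto (fun N : ℕ => (numEnd A : ℝ) * (numEnd B : ℝ) +
        ((c + N : ℕ) : ℝ) ^ c / (N.factorial : ℝ)) atTop
        (𝓝 ((numEnd A : ℝ) * (numEnd B : ℝ))) := by
      have := (tendsto_aux c).const_add ((numEnd A : ℝ) * (numEnd B : ℝ))
      rwa [add_zero] at this
    refine tendsto_of_tendsto_of_tendsto_of_le_of_le' tendsto_const_nhds hup ?_ ?_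
    · refine Filter.Eventually.of_forall fun N => ?_
      have hf : (0 : ℝ) < (N.factorial : ℝ) := by positivity
      rw [le_div_iff₀ hf]
      have := S3.le_numEnd (A := A) (B := B) (N := N)
      have h2 : ((numEnd A * N.factorial * numEnd B : ℕ) : ℝ) ≤ (numEnd (S3 A B N) : ℝ) := by
        exact_mod_cast this
      push_cast at h2
      linarith [mul_right_comm (numEnd A : ℝ) (numEnd B : ℝ) (N.factorial : ℝ)]
    · filter_upwards [Filter.eventually_ge_atTop (c + 3)] with N hN
      have hf : (0 : ℝ) < (N.factorial : ℝ) := by positivity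
      rw [div_le_iff₀ hf, add_mul, div_mul_cancel₀ _ hf.ne']
      have := S3.numEnd_le (A := A) (B := B) (N := N) (by omega) (by omega)
      have h2 : (numEnd (S3 A B N) : ℝ) ≤ ((numEnd A * N.factorial * numEnd B +
          (Nat.card A + (N + Nat.card B)) ^ (Nat.card A + Nat.card B) : ℕ) : ℝ) := by
        exact_mod_cast this
      have h3 : Nat.card A + (N + Nat.card B) = c + N := by omega
      rw [h3, ← hc] at h2
      push_cast at h2 ⊢
      linarith [mul_right_comm (numEnd A : ℝ) (numEnd B : ℝ) (N.factorial : ℝ)]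
  have h2 : Tendsto (fun N : ℕ => ((numAut A : ℝ) * (numAut B : ℝ)) /
      ((numEnd (S3 A B N) : ℝ) / (N.factorial : ℝ))) atTop
      (𝓝 (((numAut A : ℝ) * (numAut B : ℝ)) / ((numEnd A : ℝ) * (numEnd B : ℝ)))) :=
    tendsto_const_nhds.div h1 (mul_pos hA hB).ne'
  have h3 : ratio A * ratio B =
      ((numAut A : ℝ) * (numAut B : ℝ)) / ((numEnd A : ℝ) * (numEnd B : ℝ)) := by
    unfold ratio
    rw [div_mul_div_comm]
  rw [h3]
  refine h2.congr' ?_
  filter_upwards [Filter.eventually_ge_atTop (c + 3)] with N hN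
  unfold ratio
  rw [S3.numAut_eq (by omega) (by omega)]
  have hf : (0 : ℝ) < (N.factorial : ℝ) := by positivity
  have hE : (0 : ℝ) < numEnd (S3 A B N) := by exact_mod_cast numEnd_pos (S3 A B N)
  push_cast
  field_simp

/-! ### Approximable values -/

/-- `x` is approximated by ratios of arbitrarily large finite lattices. -/
def Approx (x : ℝ) : Prop :=
  ∀ ε : ℝ, 0 < ε → ∀ M : ℕ, ∃ L : FinLat, M ≤ Nat.card L.carrier ∧ |ratio L.carrier - x| < ε

lemma Approx.mem {x : ℝ} (h : Approx x) (hx : x ∈ Set.Icc (0 : ℝ) 1) : x ∈ limitingSet := by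
  refine ⟨hx, ?_⟩
  choose L hL1 hL2 using fun k : ℕ => h (1 / ((k : ℝ) + 1)) (by positivity) k
  refine ⟨L, Filter.tendsto_atTop_mono hL1 Filter.tendsto_id, ?_⟩
  rw [tendsto_iff_dist_tendsto_zero]
  refine squeeze_zero (fun _ => dist_nonneg) (fun k => ?_)
    (tendsto_one_div_add_atTop_nhds_zero_nat (𝕜 := ℝ))
  rw [Real.dist_eq]
  exact (hL2 k).le

lemma Approx.closed {x : ℝ} (h : ∀ ε : ℝ, 0 < ε → ∃ y, |y - x| < ε ∧ Approx y) : Approx x := by
  intro ε hε M
  obtain ⟨y, hy1, hy2⟩ := h (ε / 2) (by linarith)
  obtain ⟨L, hL1, hL2⟩ := hy2 (ε / 2) (by linarith) M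
  refine ⟨L, hL1, ?_⟩
  calc |ratio L.carrier - x| = |(ratio L.carrier - y) + (y - x)| := by ring_nf
    _ ≤ |ratio L.carrier - y| + |y - x| := abs_add_le _ _
    _ < ε := by linarith

lemma approx_mul (A B : FinLat) : Approx (ratio A.carrier * ratio B.carrier) := by
  intro ε hε M
  have h := tendsto_ratio A.carrier B.carrier
  rw [Metric.tendsto_atTop] at h
  obtain ⟨N0, hN0⟩ := h ε hε
  refine ⟨⟨S3 A.carrier B.carrier (max N0 M)⟩, ?_, ?_⟩
  · change M ≤ Nat.card (S3 A.carrier B.carrier (max N0 M))
    rw [S3.card_eq]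
    have := le_max_right N0 M
    omega
  · have := hN0 (max N0 M) (le_max_left _ _)
    rw [Real.dist_eq] at this
    exact this

lemma ratio_nonneg (L : Type) [Lattice L] [BoundedOrder L] : 0 ≤ ratio L := by
  unfold ratio
  positivity

lemma numAut_le (L : Type) [Lattice L] [BoundedOrder L] [Finite L] : numAut L ≤ numEnd L := by
  unfold numAut numEnd
  exact Nat.card_le_card_of_injective (fun f => f.1) Subtype.val_injective

lemma ratio_le_one (L : Type) [Lattice L] [BoundedOrder L] [Finite L] : ratio L ≤ 1 := by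
  unfold ratio
  have h1 : (0 : ℝ) < numEnd L := by exact_mod_cast numEnd_pos L
  rw [div_le_one h1]
  exact_mod_cast numAut_le L

lemma Approx.mul_ratio {x : ℝ} (h : Approx x) (L : FinLat) : Approx (x * ratio L.carrier) := by
  refine Approx.closed fun ε hε => ?_
  obtain ⟨A, _, hA⟩ := h ε hε 0
  refine ⟨ratio A.carrier * ratio L.carrier, ?_, approx_mul A L⟩
  rw [← sub_mul, abs_mul, abs_of_nonneg (ratio_nonneg L.carrier)]
  calc |ratio A.carrier - x| * ratio L.carrier ≤ |ratio A.carrier - x| * 1 :=
        mul_le_mul_of_nonneg_left (ratio_le_one _) (abs_nonneg _)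
    _ < ε := by rw [mul_one]; exact hA

lemma ratio_eq_one (L : Type) [Lattice L] [BoundedOrder L] [Finite L]
    (h : ∀ f : BoundedLatticeHom L L, Function.Bijective f) : ratio L = 1 := by
  have h1 : numAut L = numEnd L := by
    unfold numAut numEnd
    exact Nat.card_congr (Equiv.subtypeUnivEquiv h)
  unfold ratio
  rw [h1]
  have h2 : (0 : ℝ) < numEnd L := by exact_mod_cast numEnd_pos L
  exact div_self h2.ne'

lemma ratio_unit : ratio Unit = 1 :=
  ratio_eq_one Unit fun _ => ⟨fun _ _ _ => rfl, fun b => ⟨b, rfl⟩⟩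

lemma ratio_bool : ratio Bool = 1 := by
  refine ratio_eq_one Bool fun f => ?_
  have h : ∀ b, f b = b := by
    intro b
    cases b
    · exact map_bot f
    · exact map_top f
  have : (f : Bool → Bool) = id := funext h
  rw [this]
  exact Function.bijective_id

open Classical in
/-- The collapse of everything below the top of the ordinal sum. -/
noncomputable def collapse (N : ℕ) : BoundedLatticeHom (S3 Unit Bool N) (S3 Unit Bool N) where
  toFun x := if x = ⊤ then ⊤ else ⊥
  map_sup' x y := by
    have key : ∀ x y : S3 Unit Bool N, x ⊔ y = ⊤ ↔ x = ⊤ ∨ y = ⊤ := by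
      intro x y
      constructor
      · intro h
        have hcase : ∀ z : S3 Unit Bool N, z ≠ ⊤ → z ≤ S3.hi false := by
          intro z hz
          cases z with
          | lo a => exact S3.lo_le_hi _ _
          | mid i => exact S3.mid_le_hi _ _
          | hi b =>
            cases b
            · exact le_refl _
            · exact absurd rfl hz
        by_contra hcon
        push Not at hcon
        have h2 := sup_le (hcase x hcon.1) (hcase y hcon.2)
        rw [h] at h2
        change true ≤ false at h2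
        exact absurd h2 (by decide)
      · rintro (h | h)
        · rw [h, top_sup_eq]
        · rw [h, sup_top_eq]
    simp only [key]
    by_cases hx : x = ⊤ <;> by_cases hy : y = ⊤ <;> simp [hx, hy]
  map_inf' x y := by
    simp only [inf_eq_top_iff]
    by_cases hx : x = ⊤ <;> by_cases hy : y = ⊤ <;> simp [hx, hy]
  map_top' := by simp
  map_bot' := by
    have : (⊥ : S3 Unit Bool N) ≠ ⊤ := by
      intro h
      cases h
    simp [this]

lemma ratio_lt_one (N : ℕ) : ratio (S3 Unit Bool N) < 1 := by
  unfold ratio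
  have h1 : (0 : ℝ) < numEnd (S3 Unit Bool N) := by exact_mod_cast numEnd_pos _
  rw [div_lt_one h1]
  have h2 : numAut (S3 Unit Bool N) < numEnd (S3 Unit Bool N) := by
    unfold numAut numEnd
    refine Finite.card_subtype_lt (x := collapse N) ?_
    intro hbij
    have h3 : collapse N (S3.hi false) = collapse N ⊥ := by
      have e1 : (S3.hi false : S3 Unit Bool N) ≠ ⊤ := by
        intro h
        rw [S3.top_def] at h
        have := S3.hi_inj h
        exact absurd this (by decide)
      have e2 : (⊥ : S3 Unit Bool N) ≠ ⊤ := by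
        intro h
        cases h
      have e3 : ∀ z : S3 Unit Bool N, z ≠ ⊤ → collapse N z = ⊥ := fun z hz => if_neg hz
      rw [e3 _ e1, e3 _ e2]
    have h4 := hbij.1 h3
    cases h4
  exact_mod_cast h2

lemma approx_one : Approx 1 := by
  have := approx_mul ⟨Unit⟩ ⟨Unit⟩
  simp only [ratio_unit, mul_one] at this
  exact this

lemma approx_pow (L : FinLat) (m : ℕ) : Approx (ratio L.carrier ^ m) := by
  induction m with
  | zero => rw [pow_zero]; exact approx_one
  | succ m ih => rw [pow_succ]; exact ih.mul_ratio L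

lemma exists_ratio_near_one (ε : ℝ) (hε : 0 < ε) :
    ∃ L : FinLat, 1 - ε < ratio L.carrier ∧ 0 < ratio L.carrier ∧ ratio L.carrier < 1 := by
  have h := tendsto_ratio Unit Bool
  rw [ratio_unit, ratio_bool, mul_one] at h
  have h1 := h.eventually (lt_mem_nhds (show 1 - ε < 1 by linarith))
  have h2 := h.eventually (lt_mem_nhds (show (0 : ℝ) < 1 by norm_num))
  obtain ⟨N, hN1, hN2⟩ := (h1.and h2).exists
  exact ⟨⟨S3 Unit Bool N⟩, hN1, hN2, ratio_lt_one N⟩

lemma approx_pos {x : ℝ} (hx0 : 0 < x) (hx1 : x ≤ 1) : Approx x := by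
  refine Approx.closed fun ε hε => ?_
  obtain ⟨L, h1, h2, h3⟩ := exists_ratio_near_one ε hε
  obtain ⟨n, hn1, hn2⟩ := exists_nat_pow_near_of_lt_one hx0 hx1 h2 h3
  refine ⟨ratio L.carrier ^ n, ?_, approx_pow L n⟩
  rw [abs_of_nonneg (by linarith)]
  have h4 : ratio L.carrier ^ n ≤ 1 := pow_le_one₀ h2.le h3.le
  have h5 : 0 < ratio L.carrier ^ n := pow_pos h2 n
  rw [pow_succ] at hn1
  nlinarith

lemma approx_zero : Approx 0 := by
  refine Approx.closed fun ε hε => ⟨min (ε / 2) 1, ?_, approx_pos (by positivity) (min_le_right _ _)⟩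
  rw [sub_zero, abs_of_pos (by positivity)]
  linarith [min_le_left (ε / 2) 1]

/-- The limiting set `Λ` is the whole interval `[0, 1]`. -/
theorem result : limitingSet = Set.Icc (0 : ℝ) 1 := by
  apply Set.Subset.antisymm
  · intro x hx
    exact hx.1
  · intro x hx
    rcases eq_or_lt_of_le hx.1 with h | h
    · rw [← h]
      exact approx_zero.mem (by norm_num)
    · exact (approx_pos h hx.2).mem hx

end Pool.Agent.Results.MP_e86a57_co.FullInterval
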